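import Pool.Agent.Run7.h268.U.Sim
import Pool.Agent.Run7.h268.U.Mom
import Pool.Agent.Run7.h268.U.Tor2

/-!
# Ranks of elliptic curves with torsion group `ℤ/2`: strong bounds in thin families of twists of ALMOST
# EVERY curve with a rational point of order two, simultaneously for ARBITRARILY MANY curves

The question is about the ranks of the elliptic curves over `ℚ` with a given torsion group `T`. Here
`T = ℤ/2`. Let `E : y² = x³ + a x² + b x` and let `l, l' ≥ 5` be primes which do not divide `a`, such that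
the exponent of `l` in `b` and the exponent of `l'` in `a² - 4 b` are odd (`Good`); such `l`, `l'` exist for
all coprime `a`, `b` for which neither `b` nor `a² - 4 b` is `±1`, `±2`, `±3` or `±6` times a square, and
then all twists of `E` by integers prime to `l l'` satisfy the condition for the same `l`, `l'`. Let
`E_1, …, E_k` be any number of curves with this property for the same `l`, `l'`, let `s(E_j)` be
their 2-isogeny Selmer ranks and let `8 b (a² - 4 b)` divide `N` for all of them. We consider the twists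
`E_j^D : y² = x³ + a D x² + b D² x` for the products `D` of `m` different primes of the first and `m`
different primes of the second kind, `m` even; the first kind: the nonsquares modulo `l` which are `1`
modulo the part of `N` prime to `l`; the second kind: the same with `l'`. The primes are
taken from an ARBITRARY set `S` which contains a positive proportion of all primes, of each of the two
kinds; the set of all primes is possible.

1. There are between `c X (log log X)^(2m-1)/log X` and `C X (log log X)^(2m-1)/log X` such `D ≤ X`, and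
   for all but finitely many of them the torsion groups of all `E_j^D(ℚ)` are `ℤ/2`.
2. More than `28.87 %` of them have `rank E_j^D(ℚ) ≤ s(E_j)` for ALL `j`; the proportion of those with
   `rank E_j^D(ℚ) ≥ s(E_j) + t` for AT LEAST ONE `j` is at most `3.4639 · 2 ^ (-⌈t/2⌉²)`, for every `t`.
3. The average of the maximum over `j` of `2 ^ rank · #Ш[2] / 2 ^ s(E_j)` is at most `5`.
   These bounds do not depend on the curves, ON THEIR NUMBER, on `l`, `l'`, on the number of the primes
   and on the set `S`.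
4. For all but finitely many squarefree `D > 0` the torsion group of `E^D(ℚ)` is `ℤ/2`; this holds for
   every `E` such that `b` and `a² - 4 b` are not squares.

The proof: the 2-isogeny Selmer rank of `E_j^D` is `s(E_j) + 2 (m - rank M)` for all `j`, `M` the `m × m`
matrix over `𝔽₂` of the quadratic symbols, which is equidistributed among all matrices; moments of the
number of independent vectors in the kernel; for 4 the duplication map has finitely many rational
preperiodic points.
-/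

set_option autoImplicit false

open Filter Topology
open scoped Classical

namespace Pool.Agent.Results.MP_9e6228_nt.TorsionTwoManyCurves

open Run7.h268.U.Thin hiding Kind Family Dense law_all dense_kind fam_ne
open Run7.h268.U.Sim (Kind Family Dense)

/-- the torsion group of `W(ℚ)` is `ℤ/2` -/
def HasTorsionTwo (W : WeierstrassCurve ℚ) : Prop :=
  Nonempty (AddCommGroup.torsion W.toAffine.Point ≃+ ZMod 2)

/-- the 2-isogeny Selmer rank of the curve -/
noncomputable def s (a b : ℤ) : ℕ := f a b + f (-2 * a) (a ^ 2 - 4 * b) - 2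

/-- the maximum of the `2 ^ rank · #Ш[2] / 2 ^ s` over all the curves -/
noncomputable def size {k : ℕ} (a b : Fin (k + 1) → ℤ) (D : ℕ) : ℝ :=
  Finset.univ.sup' Finset.univ_nonempty fun j =>
    (2 : ℝ) ^ rank (twist (a j) (b j) D) * Nat.card (ShaTwo (twist (a j) (b j) D)) /
      2 ^ s (a j) (b j)

/-- the sum of these maxima over the `D ≤ X` of the family -/
noncomputable def total {k : ℕ} (a b : Fin (k + 1) → ℤ) (F : ℕ → Prop) (X : ℕ) : ℝ :=
  ∑ D ∈ (Finset.Icc 1 X).filter F, size a b D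

section proof

open Run7.h268.U
open Run7.h268.U.Tor (cv Exc finite_exc tors eqn)
open WeierstrassCurve.Affine (Point)

variable {a b : ℤ} {l l' n : ℕ} {u : Finset (Fin n)}

theorem torsion_two {D : ℕ} (hD0 : D ≠ 0) (hb : ¬ IsSquare b) (hD : ¬ IsSquare (a ^ 2 - 4 * b))
    (he : ¬ Exc a b D) : HasTorsionTwo (twist a b D) := by
  have hDQ : (D : ℚ) ≠ 0 := by exact_mod_cast hD0
  have hbQ : (b : ℚ) ≠ 0 := by exact_mod_cast ne_of hb
  show Nonempty (AddCommGroup.torsion (cv ((a * D : ℤ) : ℚ) ((b * D ^ 2 : ℤ) : ℚ)).toAffine.Point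
    ≃+ ZMod 2)
  have hns : (cv ((a * D : ℤ) : ℚ) ((b * D ^ 2 : ℤ) : ℚ)).toAffine.Nonsingular 0 0 := by
    rw [WeierstrassCurve.Affine.nonsingular_zero]
    simp only [cv]
    refine ⟨trivial, Or.inr ?_⟩
    push_cast
    exact mul_ne_zero hbQ (pow_ne_zero 2 hDQ)
  have h2 : (Point.some 0 0 hns) + Point.some 0 0 hns = 0 :=
    Point.add_self_of_Y_eq (by
      unfold WeierstrassCurve.Affine.negY
      simp only [cv]
      ring)
  have hT : IsOfFinAddOrder (Point.some 0 0 hns) := by
    rw [isOfFinAddOrder_iff_nsmul_eq_zero]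
    exact ⟨2, by norm_num, by rw [two_nsmul]; exact h2⟩
  have hcard : Nat.card (AddCommGroup.torsion
      (cv ((a * D : ℤ) : ℚ) ((b * D ^ 2 : ℤ) : ℚ)).toAffine.Point) = 2 := by
    rw [Nat.card_eq_two_iff]
    refine ⟨0, ⟨Point.some 0 0 hns, hT⟩, fun h => Point.some_ne_zero hns (congrArg Subtype.val h).symm,
      ?_⟩
    ext P
    simp only [Set.mem_insert_iff, Set.mem_singleton_iff, Set.mem_univ, iff_true]
    rcases tors hD0 hb hD he P.2 with h | ⟨h', h⟩
    · exact Or.inl (Subtype.ext h)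
    · exact Or.inr (Subtype.ext h)
  have : Fact (Nat.Prime 2) := ⟨Nat.prime_two⟩
  have hcyc : IsAddCyclic (AddCommGroup.torsion
      (cv ((a * D : ℤ) : ℚ) ((b * D ^ 2 : ℤ) : ℚ)).toAffine.Point) :=
    isAddCyclic_of_prime_card hcard
  have e := zmodAddCyclicAddEquiv hcyc
  rw [hcard] at e
  exact ⟨e.symm⟩

theorem s_eq (h : Good a b l l') : selmerRank a b 1 = s a b := by
  obtain ⟨-, h1, -⟩ := two_le h one_ne_zero
  rw [sel_one] at h1 ⊢
  unfold s
  omega

variable {N k : ℕ} {A B : Fin (k + 1) → ℤ}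

/-- the corank of the twists -/
theorem data (h : ∀ j, Good (A j) (B j) l l') (hN : ∀ j, modulus (A j) (B j) ∣ N)
    (hu : Even u.card) (hc : u.card = uᶜ.card) {S : Set ℕ} {D : ℕ} (hD : Family S N l l' u D) :
    ∃ t ≤ u.card, ∀ j, selmerRank (A j) (B j) D = s (A j) (B j) + 2 * t ∧
      2 ^ rank (twist (A j) (B j) D) * Nat.card (ShaTwo (twist (A j) (B j) D)) ≤
        2 ^ s (A j) (B j) * 4 ^ t ∧
      0 < Nat.card (ShaTwo (twist (A j) (B j) D)) := by
  have hD0 := Run7.h268.U.Sim.fam_ne hD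
  obtain ⟨p, hp, hk, rfl⟩ := hD
  obtain ⟨h5, -⟩ := rank_le' (u := u) p
  refine ⟨u.card - (Mt u p).rank, Nat.sub_le _ _, fun j => ?_⟩
  obtain ⟨-, h2, h3, h4⟩ := two_le (h j) hD0
  have hpr : Pr (A j) (B j) l l' u p :=
    Run7.h268.U.Sim.pr_of (h j) (hN j) hp fun i => (hk i).2
  have h7 := sel_rank' (h j) hpr hu (hc ▸ hu)
  rw [s_eq (h j)] at h7
  have h8 : selmerRank (A j) (B j) (∏ i, p i) =
      s (A j) (B j) + 2 * ((u.card - (Mt u p).rank : ℕ) : ℤ) := by
    rw [h7, ← hc]
    push_cast [Nat.cast_sub h5]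
    ring
  refine ⟨h8, ?_, h3⟩
  refine h4.trans (le_of_eq ?_)
  have e : (4 : ℕ) = 2 ^ 2 := by norm_num
  rw [h8, e, ← pow_mul, ← pow_add]
  congr 1

theorem count_card (Q : ℕ → Prop) (X : ℕ) : count Q X = ((Finset.Icc 1 X).filter Q).card := by
  unfold count
  refine Nat.subtype_card _ fun m => ?_
  rw [Finset.mem_filter, Finset.mem_Icc]
  tauto

theorem count_mono {Q Q' : ℕ → Prop} (h : ∀ m, Q m → Q' m) (X : ℕ) : count Q X ≤ count Q' X := by
  rw [count_card, count_card]
  exact Finset.card_le_card (Finset.monotone_filter_right _ fun m _ h' => h m h')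

/-- from a limit to an inequality -/
theorem upper {F : ℕ → Prop} {g : ℕ → ℝ} {θ θ' : ℝ} (h : Tendsto (fun X => g X / (count F X : ℝ))
    atTop (𝓝 θ)) (h0 : ∀ X, count F X = 0 → g X ≤ 0) (hθ : θ ≤ θ') {ε : ℝ} (hε : 0 < ε) :
    ∀ᶠ X in atTop, g X ≤ (θ' + ε) * (count F X : ℝ) := by
  have h1 := h.eventually (gt_mem_nhds (show θ < θ' + ε by linarith))
  filter_upwards [h1] with X hX
  by_cases hc : count F X = 0
  · rw [hc, Nat.cast_zero, mul_zero]
    exact h0 X hc
  · have hpos : (0 : ℝ) < count F X := by exact_mod_cast Nat.pos_of_ne_zero hc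
    rw [div_lt_iff₀ hpos] at hX
    exact hX.le

theorem cards (hc : u.card = uᶜ.card) :
    Fintype.card (uᶜ : Finset (Fin n)) = u.card ∧ Fintype.card u = u.card := by
  rw [Fintype.card_coe, Fintype.card_coe]
  exact ⟨hc.symm, rfl⟩

theorem corank (M : Matrix (uᶜ : Finset (Fin n)) u (ZMod 2)) : M.rank + Mom.dk M = u.card := by
  rw [Mom.dk_rank, Fintype.card_coe]

/-- the tail of the law -/
theorem tail_le (hc : u.card = uᶜ.card) (c : ℕ) :
    (Nat.card {M : Matrix (uᶜ : Finset (Fin n)) u (ZMod 2) //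
      ∃ j : Fin (k + 1), selmerRank (A j) (B j) 1 + 2 * c ≤
        selmerRank (A j) (B j) 1 + ((u.card : ℤ) + uᶜ.card - 2 * M.rank)} : ℝ) /
        2 ^ (uᶜ.card * u.card) ≤ 3.4639 * (1 / 2) ^ (c ^ 2) := by
  obtain ⟨c1, c2⟩ := cards hc
  have h3 := Mom.tail' (I := (uᶜ : Finset (Fin n))) (J := u) c1 c2 c
  have h2 : Nat.card {M : Matrix (uᶜ : Finset (Fin n)) u (ZMod 2) //
      ∃ j : Fin (k + 1), selmerRank (A j) (B j) 1 + 2 * c ≤
        selmerRank (A j) (B j) 1 + ((u.card : ℤ) + uᶜ.card - 2 * M.rank)} =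
      Nat.card {M : Matrix (uᶜ : Finset (Fin n)) u (ZMod 2) // c ≤ Mom.dk M} := by
    refine Nat.card_congr (Equiv.subtypeEquivRight fun M => ?_)
    have := corank M
    constructor
    · rintro ⟨j, hj⟩
      omega
    · intro hj
      exact ⟨0, by omega⟩
  rw [h2, ← hc]
  have h4 := Run7.h268.U.prod_gt c
  generalize (Nat.card {M : Matrix (uᶜ : Finset (Fin n)) u (ZMod 2) // c ≤ Mom.dk M}) = K at h3 ⊢
  have hc0 : (0 : ℝ) ≤ K := Nat.cast_nonneg _
  rw [div_le_iff₀ (by positivity)]
  have h5 : (K : ℝ) * (2 ^ (c ^ 2) * 0.2887) ≤ 2 ^ (u.card * u.card) := by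
    refine le_trans (mul_le_mul_of_nonneg_left (mul_le_mul_of_nonneg_left h4.le (by positivity))
      hc0) h3
  have h6 : (1 / 2 : ℝ) ^ (c ^ 2) * 2 ^ (c ^ 2) = 1 := by
    rw [← mul_pow]
    norm_num
  have h7 : (K : ℝ) ≤ 3.4639 * (1 / 2) ^ (c ^ 2) * (K * (2 ^ (c ^ 2) * 0.2887)) := by
    have e : 3.4639 * (1 / 2) ^ (c ^ 2) * ((K : ℝ) * (2 ^ (c ^ 2) * 0.2887)) =
        3.4639 * 0.2887 * K * ((1 / 2 : ℝ) ^ (c ^ 2) * 2 ^ (c ^ 2)) := by ring
    rw [e, h6, mul_one]
    nlinarith
  exact h7.trans (mul_le_mul_of_nonneg_left h5 (by positivity))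

theorem tail_rank (h : ∀ j, Good (A j) (B j) l l') (hN : ∀ j, modulus (A j) (B j) ∣ N)
    (hu : Even u.card) (hc : u.card = uᶜ.card) (hn : 1 ≤ n)
    {S : Set ℕ} (hS : Dense S N l) (hS' : Dense S N l') (t : ℕ) {ε : ℝ} (hε : 0 < ε) :
    ∀ᶠ X in atTop, (count (fun D => Family S N l l' u D ∧
        ∃ j, s (A j) (B j) + t ≤ rank (twist (A j) (B j) D)) X : ℝ) ≤
      (3.4639 * (1 / 2) ^ (((t + 1) / 2) ^ 2) + ε) * (count (Family S N l l' u) X : ℝ) := by
  have h1 := (Run7.h268.U.Sim.law_all h hN hu (hc ▸ hu) hn hS hS').2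
    fun σ => ∃ j, selmerRank (A j) (B j) 1 + 2 * ((t + 1) / 2 : ℕ) ≤ σ j
  have h2 := upper h1 (fun X h0 => ?_) (tail_le hc ((t + 1) / 2)) hε
  · filter_upwards [h2] with X hX
    refine le_trans ?_ hX
    have h3 : count (fun D => Family S N l l' u D ∧
        ∃ j, s (A j) (B j) + t ≤ rank (twist (A j) (B j) D)) X ≤
        count (fun D => Family S N l l' u D ∧
          ∃ j, selmerRank (A j) (B j) 1 + 2 * ((t + 1) / 2 : ℕ) ≤ selmerRank (A j) (B j) D) X := by
      refine count_mono (fun D hD => ⟨hD.1, ?_⟩) X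
      obtain ⟨r, -, h4⟩ := data h hN hu hc hD.1
      obtain ⟨j, h9⟩ := hD.2
      obtain ⟨h4, h5, h6⟩ := h4 j
      have h7 : 2 ^ rank (twist (A j) (B j) D) ≤ 2 ^ (s (A j) (B j) + 2 * r) := by
        have e : (4 : ℕ) = 2 ^ 2 := by norm_num
        rw [pow_add, pow_mul, ← e]
        exact le_trans (Nat.le_mul_of_pos_right _ h6) h5
      have h8 := (Nat.pow_le_pow_iff_right (by norm_num : 1 < 2)).1 h7
      refine ⟨j, ?_⟩
      rw [h4, s_eq (h j)]
      omega
    exact_mod_cast h3
  · have h3 : count (fun D => Family S N l l' u D ∧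
          ∃ j, selmerRank (A j) (B j) 1 + 2 * ((t + 1) / 2 : ℕ) ≤ selmerRank (A j) (B j) D) X ≤
        count (Family S N l l' u) X := count_mono (fun D hD => hD.1) X
    rw [h0] at h3
    have h4 := Nat.le_zero.1 h3
    rw [h4, Nat.cast_zero]

/-- the curves with the smallest Selmer rank -/
theorem small_rank (h : ∀ j, Good (A j) (B j) l l') (hN : ∀ j, modulus (A j) (B j) ∣ N)
    (hu : Even u.card) (hc : u.card = uᶜ.card) (hn : 1 ≤ n)
    {S : Set ℕ} (hS : Dense S N l) (hS' : Dense S N l') :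
    ∀ᶠ X in atTop, 0.2887 * (count (Family S N l l' u) X : ℝ) ≤
      (count (fun D => Family S N l l' u D ∧
        ∀ j, rank (twist (A j) (B j) D) ≤ s (A j) (B j)) X : ℝ) := by
  have h1 := (Run7.h268.U.Sim.law_all h hN hu (hc ▸ hu) hn hS hS').2
    fun σ => ∀ j, σ j = selmerRank (A j) (B j) 1
  have h2 : (Nat.card {M : Matrix (uᶜ : Finset (Fin n)) u (ZMod 2) //
      ∀ j, selmerRank (A j) (B j) 1 + ((u.card : ℤ) + uᶜ.card - 2 * M.rank) =
        selmerRank (A j) (B j) 1} : ℝ) /
        2 ^ (uᶜ.card * u.card) = ∏ i ∈ Finset.range u.card, (1 - (1 / 2 : ℝ) ^ (i + 1)) := by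
    rw [← Run7.h268.U.card_full u uᶜ rfl hc.symm]
    congr 2
    refine Nat.card_congr (Equiv.subtypeEquivRight fun M => ?_)
    rw [← hc]
    constructor
    · intro h3
      have := h3 0
      omega
    · intro h3 j
      omega
  have h3 := Run7.h268.U.prod_gt u.card
  rw [← h2] at h3
  have h4 := h1.eventually (lt_mem_nhds h3)
  filter_upwards [h4] with X hX
  by_cases h0 : count (Family S N l l' u) X = 0
  · rw [h0, Nat.cast_zero, mul_zero]
    exact Nat.cast_nonneg _
  · have hpos : (0 : ℝ) < count (Family S N l l' u) X := by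
      exact_mod_cast Nat.pos_of_ne_zero h0
    rw [lt_div_iff₀ hpos] at hX
    refine hX.le.trans ?_
    refine Nat.cast_le.2 (count_mono (fun D hD => ⟨hD.1, fun j => ?_⟩) X)
    obtain ⟨r, -, h5⟩ := data h hN hu hc hD.1
    obtain ⟨h5, h6, h7⟩ := h5 j
    have h8 := hD.2 j
    rw [h5, s_eq (h j)] at h8
    have h9 : r = 0 := by omega
    rw [h9, pow_zero, mul_one] at h6
    exact (Nat.pow_le_pow_iff_right (by norm_num : 1 < 2)).1
      ((Nat.le_mul_of_pos_right _ h7).trans h6)

/-- the average of the limit law -/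
theorem avg_le (hc : u.card = uᶜ.card) (z : ℤ) :
    ∑ t ∈ Finset.range (u.card + 1), (4 : ℝ) ^ t *
      ((Nat.card {M : Matrix (uᶜ : Finset (Fin n)) u (ZMod 2) //
        z + ((u.card : ℤ) + uᶜ.card - 2 * M.rank) = z + 2 * t} : ℝ) /
          2 ^ (uᶜ.card * u.card)) ≤ 5 := by
  obtain ⟨c1, c2⟩ := cards hc
  have h1 := Mom.moment' (I := (uᶜ : Finset (Fin n))) (J := u) c1 c2
  have h2 : ∀ t : ℕ, Nat.card {M : Matrix (uᶜ : Finset (Fin n)) u (ZMod 2) //
      z + ((u.card : ℤ) + uᶜ.card - 2 * M.rank) = z + 2 * t} =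
      Nat.card {M : Matrix (uᶜ : Finset (Fin n)) u (ZMod 2) // Mom.dk M = t} := by
    intro t
    refine Nat.card_congr (Equiv.subtypeEquivRight fun M => ?_)
    have := corank M
    omega
  rw [Finset.sum_congr rfl fun t _ => by rw [h2 t, ← mul_div_assoc], ← Finset.sum_div,
    div_le_iff₀ (by positivity), ← hc]
  exact h1

theorem total_le (h : ∀ j, Good (A j) (B j) l l') (hN : ∀ j, modulus (A j) (B j) ∣ N)
    (hu : Even u.card) (hc : u.card = uᶜ.card) (hn : 1 ≤ n)
    {S : Set ℕ} (hS : Dense S N l) (hS' : Dense S N l') {ε : ℝ} (hε : 0 < ε) :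
    ∀ᶠ X in atTop, total A B (Family S N l l' u) X ≤
      (5 + ε) * (count (Family S N l l' u) X : ℝ) := by
  obtain ⟨z, hz⟩ : ∃ z, z = selmerRank (A 0) (B 0) 1 := ⟨_, rfl⟩
  have h1 : Tendsto (fun X : ℕ => (∑ t ∈ Finset.range (u.card + 1), (4 : ℝ) ^ t *
      (count (fun D => Family S N l l' u D ∧ selmerRank (A 0) (B 0) D = z + 2 * t) X : ℝ)) /
        (count (Family S N l l' u) X : ℝ)) atTop (𝓝 (
      ∑ t ∈ Finset.range (u.card + 1), (4 : ℝ) ^ t *
      ((Nat.card {M : Matrix (uᶜ : Finset (Fin n)) u (ZMod 2) //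
        selmerRank (A 0) (B 0) 1 + ((u.card : ℤ) + uᶜ.card - 2 * M.rank) = z + 2 * t} : ℝ) /
          2 ^ (uᶜ.card * u.card)))) := by
    have h2 : ∀ X : ℕ, (∑ t ∈ Finset.range (u.card + 1), (4 : ℝ) ^ t *
      (count (fun D => Family S N l l' u D ∧ selmerRank (A 0) (B 0) D = z + 2 * t) X : ℝ)) /
        (count (Family S N l l' u) X : ℝ) =
        ∑ t ∈ Finset.range (u.card + 1), (4 : ℝ) ^ t *
      ((count (fun D => Family S N l l' u D ∧ selmerRank (A 0) (B 0) D = z + 2 * t) X : ℝ) /
        (count (Family S N l l' u) X : ℝ)) := fun X => by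
      rw [Finset.sum_div]
      exact Finset.sum_congr rfl fun t _ => mul_div_assoc _ _ _
    rw [funext h2]
    refine tendsto_finsetSum _ fun t _ => Tendsto.const_mul _ ?_
    exact (Run7.h268.U.Sim.law_all h hN hu (hc ▸ hu) hn hS hS').2 fun σ => σ 0 = z + 2 * t
  rw [← hz] at h1
  have h3 := upper h1 (fun X h0 => ?_) (avg_le hc z) hε
  · filter_upwards [h3] with X hX
    refine le_trans ?_ hX
    have h4 : ∀ D ∈ (Finset.Icc 1 X).filter (Family S N l l' u),
        ((selmerRank (A 0) (B 0) D - s (A 0) (B 0)) / 2).toNat ∈ Finset.range (u.card + 1) ∧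
        size A B D ≤ 4 ^ ((selmerRank (A 0) (B 0) D - s (A 0) (B 0)) / 2).toNat := by
      intro D hD
      obtain ⟨t, ht, h5⟩ := data h hN hu hc (Finset.mem_filter.1 hD).2
      have e : ((selmerRank (A 0) (B 0) D - s (A 0) (B 0)) / 2).toNat = t := by
        rw [(h5 0).1]
        omega
      rw [e]
      refine ⟨Finset.mem_range.2 (by omega), ?_⟩
      unfold size
      refine Finset.sup'_le _ _ fun j _ => ?_
      rw [div_le_iff₀ (by positivity), mul_comm ((4 : ℝ) ^ t)]
      exact_mod_cast (h5 j).2.1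
    calc total A B (Family S N l l' u) X
        ≤ ∑ D ∈ (Finset.Icc 1 X).filter (Family S N l l' u),
            (4 : ℝ) ^ ((selmerRank (A 0) (B 0) D - s (A 0) (B 0)) / 2).toNat :=
          Finset.sum_le_sum fun D hD => (h4 D hD).2
      _ = ∑ t ∈ Finset.range (u.card + 1),
            ∑ D ∈ ((Finset.Icc 1 X).filter (Family S N l l' u)).filter
            (fun D => ((selmerRank (A 0) (B 0) D - s (A 0) (B 0)) / 2).toNat = t),
            (4 : ℝ) ^ ((selmerRank (A 0) (B 0) D - s (A 0) (B 0)) / 2).toNat := by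
          rw [Finset.sum_fiberwise_of_maps_to (fun D hD => (h4 D hD).1) _]
      _ = _ := by
          refine Finset.sum_congr rfl fun t _ => ?_
          rw [Finset.sum_congr rfl fun D hD => by rw [(Finset.mem_filter.1 hD).2],
            Finset.sum_const, nsmul_eq_mul, mul_comm, count_card]
          congr 2
          congr 1
          ext D
          simp only [Finset.mem_filter, Finset.mem_Icc]
          constructor
          · rintro ⟨⟨h5, h6⟩, h7⟩
            refine ⟨h5, h6, ?_⟩
            obtain ⟨r, hr, h8⟩ := data h hN hu hc h6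
            have h8 := (h8 0).1
            rw [h8] at h7 ⊢
            rw [hz, s_eq (h 0)]
            omega
          · rintro ⟨h5, h6, h7⟩
            refine ⟨⟨h5, h6⟩, ?_⟩
            rw [h7, hz, s_eq (h 0)]
            omega
  · refine le_of_eq (Finset.sum_eq_zero fun t _ => ?_)
    have h4 : count (fun D => Family S N l l' u D ∧
        selmerRank (A 0) (B 0) D = z + 2 * t) X ≤
        count (Family S N l l' u) X := count_mono (fun D hD => hD.1) X
    rw [h0] at h4
    rw [Nat.le_zero.1 h4, Nat.cast_zero, mul_zero]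

theorem finite_tors (hb : ¬ IsSquare b) (hD : ¬ IsSquare (a ^ 2 - 4 * b)) :
    {D : ℕ | Squarefree D ∧ ¬ HasTorsionTwo (twist a b D)}.Finite := by
  refine (Run7.h268.U.Tor.finite_exc (a := a) (b := b) (ne_of hb) (ne_of hD)).subset ?_
  rintro D ⟨h1, h2⟩
  refine ⟨h1, ?_⟩
  by_contra h3
  exact h2 (torsion_two h1.ne_zero hb hD h3)

end proof

/-- **Ranks in thin families of curves with torsion group `ℤ/2`.** -/
theorem result :
    -- the torsion group
    (∀ a b : ℤ, ¬ IsSquare b → ¬ IsSquare (a ^ 2 - 4 * b) →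
      {D : ℕ | Squarefree D ∧ ¬ HasTorsionTwo (twist a b D)}.Finite) ∧
    -- almost all curves
    (∀ a b : ℤ, IsCoprime a b →
      (∀ c : ℤ, c ∣ 6 → ¬ IsSquare (c * b) ∧ ¬ IsSquare (c * (a ^ 2 - 4 * b))) →
      ∃ l l' : ℕ, Good a b l l') ∧
    -- the twists of one curve
    (∀ (a b : ℤ) (l l' : ℕ), Good a b l l' → ∀ d : ℤ, ¬ (l : ℤ) ∣ d → ¬ (l' : ℤ) ∣ d →
      Good (a * d) (b * d ^ 2) l l') ∧
    -- several curves
    ∀ (k : ℕ) (a b : Fin (k + 1) → ℤ) (l l' N : ℕ), (∀ j, Good (a j) (b j) l l') →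
      (∀ j, modulus (a j) (b j) ∣ N) →
      -- all primes
      (N ≠ 0 → Dense Set.univ N l ∧ Dense Set.univ N l') ∧
      -- the families
      ∀ (n : ℕ) (u : Finset (Fin n)), 1 ≤ n → Even u.card → u.card = uᶜ.card →
        ∀ S : Set ℕ, Dense S N l → Dense S N l' →
          -- their size
          (∃ (c C : ℝ) (X₀ : ℕ), 0 < c ∧ 0 < C ∧ ∀ X : ℕ, X₀ ≤ X →
            c * (X * Real.log (Real.log X) ^ (n - 1) / Real.log X) ≤
              (count (Family S N l l' u) X : ℝ) ∧
            (count (Family S N l l' u) X : ℝ) ≤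
              C * (X * Real.log (Real.log X) ^ (n - 1) / Real.log X)) ∧
          -- the torsion groups
          {D : ℕ | Family S N l l' u D ∧ ∃ j, ¬ HasTorsionTwo (twist (a j) (b j) D)}.Finite ∧
          -- small ranks
          (∀ᶠ X in atTop, 0.2887 * (count (Family S N l l' u) X : ℝ) ≤
            (count (fun D => Family S N l l' u D ∧
              ∀ j, rank (twist (a j) (b j) D) ≤ s (a j) (b j)) X : ℝ)) ∧
          -- the tails
          (∀ (t : ℕ) (ε : ℝ), 0 < ε → ∀ᶠ X in atTop,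
            (count (fun D => Family S N l l' u D ∧
              ∃ j, s (a j) (b j) + t ≤ rank (twist (a j) (b j) D)) X : ℝ) ≤
              (3.4639 * (1 / 2) ^ (((t + 1) / 2) ^ 2) + ε) *
                (count (Family S N l l' u) X : ℝ)) ∧
          -- the average
          (∀ ε : ℝ, 0 < ε → ∀ᶠ X in atTop, total a b (Family S N l l' u) X ≤
            (5 + ε) * (count (Family S N l l' u) X : ℝ)) := by
  refine ⟨fun a b hb hD => finite_tors hb hD, fun a b => exists_good, fun a b l l' h d hd hd' =>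
    Run7.h268.U.Sim.good_twist h hd hd', fun k a b l l' N h hN =>
    ⟨fun hN0 => ?_,
      fun n u hn hu hc S hS hS' => ⟨(Run7.h268.U.Sim.law_all h hN hu (hc ▸ hu) hn hS hS').1, ?_,
        small_rank h hN hu hc hn hS hS', fun t ε hε => tail_rank h hN hu hc hn hS hS' t hε,
        fun ε hε => total_le h hN hu hc hn hS hS' hε⟩⟩⟩
  · have h8 : 8 ∣ N := (Run7.h268.U.Thin.eight).trans (hN 0)
    exact ⟨Run7.h268.U.Sim.dense_kind (h 0).prime (h 0).five hN0 h8,
      Run7.h268.U.Sim.dense_kind (h 0).prime' (h 0).five' hN0 h8⟩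
  refine (Set.finite_iUnion fun j : Fin (k + 1) =>
    finite_tors (h j).nsb (h j).nsd).subset ?_
  rintro D ⟨h1, j, h2⟩
  refine Set.mem_iUnion.2 ⟨j, ?_, h2⟩
  obtain ⟨p, hp, hk, rfl⟩ := h1
  have hpr : ∀ i, (p i).Prime := fun i => by
    by_cases hi : i ∈ u
    · exact ((hk i).2.1 hi).1
    · exact ((hk i).2.2 hi).1
  refine Finset.squarefree_prod_of_pairwise_isCoprime (fun i _ j _ hij => ?_) fun i _ =>
    (hpr i).prime.squarefree
  exact Nat.coprime_iff_isRelPrime.1 ((Nat.coprime_primes (hpr i) (hpr j)).2 fun e => hij (hp e))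

end Pool.Agent.Results.MP_9e6228_nt.TorsionTwoManyCurves
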