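import Mathlib
import Pool.Agent.Run7.h438.TT2

/-!
# The average of `4 ^ rank` over the elliptic curves with torsion group `Z/2 x Z/2` is bounded

All elliptic curves over `ℚ` whose torsion group is (exactly) isomorphic to `Z/2 x Z/2`, ordered by
height: their number tends to infinity, and the average of `4 ^ rank` over the curves of height at
most `H` is bounded by a constant. They are a positive proportion of all curves whose points of
order two are all rational, and even the sum of `4 ^ rank` over all these curves is bounded by a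
constant times the number of the curves with torsion group `Z/2 x Z/2`.
-/

namespace Pool.Agent.Results.MP_9e6228_nt.TorsionTwoTwo

open Finset Filter

/-- the curve `y² = x³ + A x + B` over `ℚ` -/
def W (A B : ℤ) : WeierstrassCurve ℚ := ⟨0, 0, 0, (A : ℚ), (B : ℚ)⟩

/-- The pair `(A, B)` is the minimal pair of an elliptic curve of height at most `H`:
`4 A³ + 27 B² ≠ 0`, there is no prime `p` with `p⁴ ∣ A` and `p⁶ ∣ B`, and the height
`max (4 |A|³) (27 B²)` is at most `H`. Every elliptic curve over `ℚ` is isomorphic to `W A B` for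
exactly one pair with the first two properties. -/
def Minimal (H : ℕ) (c : ℤ × ℤ) : Prop :=
  4 * c.1 ^ 3 + 27 * c.2 ^ 2 ≠ 0 ∧ 4 * |c.1| ^ 3 ≤ H ∧ 27 * c.2 ^ 2 ≤ H ∧
    ∀ p : ℕ, p.Prime → ¬ ((p : ℤ) ^ 4 ∣ c.1 ∧ (p : ℤ) ^ 6 ∣ c.2)

open Classical in
/-- The minimal pairs of height at most `H` such that the torsion subgroup of the group of the
rational points of `y² = x³ + A x + B` is isomorphic to `Z/2 x Z/2`. (The bounds `|A|, |B| ≤ H`
follow from the bound of the height.) -/
noncomputable def Fam (H : ℕ) : Finset (ℤ × ℤ) :=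
  ((Icc (-(H : ℤ)) H) ×ˢ (Icc (-(H : ℤ)) H)).filter (fun c : ℤ × ℤ => Minimal H c ∧
    Nonempty (AddCommGroup.torsion (W c.1 c.2).toAffine.Point ≃+ ZMod 2 × ZMod 2))

open Classical in
/-- The minimal pairs of height at most `H` such that `Z/2 x Z/2` embeds in the group of the
rational points of `y² = x³ + A x + B`. -/
noncomputable def Full (H : ℕ) : Finset (ℤ × ℤ) :=
  ((Icc (-(H : ℤ)) H) ×ˢ (Icc (-(H : ℤ)) H)).filter (fun c : ℤ × ℤ => Minimal H c ∧
    ∃ f : ZMod 2 × ZMod 2 →+ (W c.1 c.2).toAffine.Point, Function.Injective f)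

lemma Full_eq (H : ℕ) : Full H = Pool.Agent.W307.RT.Cv 2 H := by
  classical
  ext c
  constructor
  · intro h
    obtain ⟨h1, ⟨m1, m2, m3, m4⟩, h2⟩ := mem_filter.1 h
    exact mem_filter.2 ⟨h1, m1, m2, m3, m4, Pool.Agent.W307.RT.tors_iff.2 h2⟩
  · intro h
    obtain ⟨h1, m1, m2, m3, m4, h2⟩ := mem_filter.1 h
    exact mem_filter.2 ⟨h1, ⟨m1, m2, m3, m4⟩, Pool.Agent.W307.RT.tors_iff.1 h2⟩

lemma Fam_eq (H : ℕ) : Fam H = Run7.h438.TT.Ex H := by
  classical
  ext c
  constructor
  · intro h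
    obtain ⟨h1, ⟨m1, m2, m3, m4⟩, h2⟩ := mem_filter.1 h
    have h3 : Run7.h438.TT.ExactT (Pool.Agent.W307.RT.Sh c.1 c.2) := h2
    exact mem_filter.2 ⟨mem_filter.2 ⟨h1, m1, m2, m3, m4, Run7.h438.TT.hasT_of_exact h3⟩, h3⟩
  · intro h
    obtain ⟨h0, h2⟩ := mem_filter.1 h
    obtain ⟨h1, m1, m2, m3, m4, -⟩ := mem_filter.1 h0
    exact mem_filter.2 ⟨h1, ⟨m1, m2, m3, m4⟩, h2⟩

lemma Fam_sub (H : ℕ) : Fam H ⊆ Full H := by
  classical
  rw [Fam_eq, Full_eq]
  exact filter_subset _ _

/-- **Theorem.** (1) The number of the elliptic curves over `ℚ` of height at most `H` with torsion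
group `Z/2 x Z/2` tends to infinity with `H`. (2) The average of `4 ^ rank` over these curves is
bounded. (3) The sum of `4 ^ rank` over all elliptic curves over `ℚ` of height at most `H` with full
rational 2-torsion is at most a constant times the number of those with torsion group `Z/2 x Z/2`,
as soon as there is one; in particular these are a positive proportion of the former. -/
theorem result :
    Tendsto (fun H : ℕ => (Fam H).card) atTop atTop ∧
    (∃ C : ℝ, ∀ H : ℕ, ∑ c ∈ Fam H,
      (4 : ℝ) ^ Module.finrank ℤ (W c.1 c.2).toAffine.Point ≤ C * (Fam H).card) ∧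
    ∃ C : ℝ, ∀ H : ℕ, (Fam H).card ≠ 0 → ∑ c ∈ Full H,
      (4 : ℝ) ^ Module.finrank ℤ (W c.1 c.2).toAffine.Point ≤ C * (Fam H).card := by
  obtain ⟨C, hC⟩ := Run7.h438.TT.height
  have h3 : ∀ H : ℕ, (Fam H).card ≠ 0 → ∑ c ∈ Full H,
      (4 : ℝ) ^ Module.finrank ℤ (W c.1 c.2).toAffine.Point ≤ C * (Fam H).card := by
    intro H hH
    rw [Fam_eq] at hH
    rw [Fam_eq, Full_eq]
    exact hC H hH
  refine ⟨?_, ⟨C, fun H => ?_⟩, C, h3⟩
  · simp only [Fam_eq]
    exact Run7.h438.TT.tendsto_ex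
  · by_cases h0 : (Fam H).card = 0
    · rw [card_eq_zero.1 h0]
      simp
    · refine le_trans (sum_le_sum_of_subset_of_nonneg ?_ ?_) (h3 H h0)
      · exact Fam_sub H
      · intro c _ _
        positivity

end Pool.Agent.Results.MP_9e6228_nt.TorsionTwoTwo
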