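import Mathlib
import Pool.Agent.Run7.h318.DI.D

/-!
# Torsion group `Z/2 x Z/2`: the ranks, ordered by the minimal discriminant

The elliptic curves over `ℚ` with torsion group (exactly) isomorphic to `T = Z/2 x Z/2`, the family in
the definition of `B(T)`, ordered by the absolute value of the minimal discriminant.

Theorem. The number of these curves with `|Δ_min| ≤ X` is of the exact order `X ^ (1 / 3)`; they are a
positive proportion of all elliptic curves with full rational 2-torsion. The average of `4 ^ rank` over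
the curves with torsion group `T` and `|Δ_min| ≤ X` is bounded; the proportion of those of rank at least
`M` is at most `C / 4 ^ M`. Even the sum of `4 ^ rank` over all elliptic curves with full rational
2-torsion is at most a constant times the number of the curves with torsion group `T`.

The proof. The curves with full 2-torsion are `y² = x (x - a) (x - b)`, with `|Δ_min|` equal to
`(a b (a - b))²` up to a bounded factor. The region `|a b (a - b)| ≤ Y` has three cusps, which go to
infinity and are very thin there. Up to the symmetries it is covered by dyadic rectangles, and these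
by squares whose side is a small power of `Y` and at least a fixed power of the distance from the origin,
of total area at most a constant times `Y ^ (2 / 3)` (`Pool/Agent/Run7/h318/DI`). In these squares the second
moment of `2 ^ rank` is bounded by a theorem of helper69 (`Pool/Agent/Run7/h69`). The lower bound for the
number of curves with torsion group exactly `T` uses the reduction modulo 3 and is due to helper438
(`Pool/Agent/Run7/h438`).
-/

set_option autoImplicit false

namespace Pool.Agent.Results.MP_9e6228_nt.TorsionTwoTwoByDiscriminant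

open Finset

/-- The equation `y ^ 2 = x ^ 3 + A x + B` with integers `A`, `B` defines an elliptic curve, and
there is no prime `p` with `p ^ 4 ∣ A` and `p ^ 6 ∣ B`. Every elliptic curve over `ℚ` is isomorphic to
exactly one of these. -/
structure IsMinimal (A B : ℤ) : Prop where
  elliptic : 4 * A ^ 3 + 27 * B ^ 2 ≠ 0
  minimal : ∀ p : ℕ, p.Prime → ¬ ((p : ℤ) ^ 4 ∣ A ∧ (p : ℤ) ^ 6 ∣ B)

/-- The curve `y ^ 2 = x ^ 3 + A x + B` over `ℚ`. -/
def curve (c : ℤ × ℤ) : WeierstrassCurve ℚ := ⟨0, 0, 0, (c.1 : ℚ), (c.2 : ℚ)⟩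

/-- The rank of the group of the rational points. -/
noncomputable def rank (W : WeierstrassCurve ℚ) : ℕ := Module.finrank ℤ W.toAffine.Point

/-- The torsion subgroup of the group of the rational points is isomorphic to `Z/2 x Z/2`. -/
def TorsionTwoTwo (W : WeierstrassCurve ℚ) : Prop :=
  Nonempty (AddCommGroup.torsion W.toAffine.Point ≃+ ZMod 2 × ZMod 2)

/-- The group of the rational points contains `Z/2 x Z/2`. -/
def FullTwo (W : WeierstrassCurve ℚ) : Prop :=
  ∃ f : ZMod 2 × ZMod 2 →+ W.toAffine.Point, Function.Injective f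

/-- The absolute value of the minimal discriminant: the least absolute value of the discriminant
of a Weierstrass equation `W'` with integer coefficients which becomes isomorphic to `W` over `ℚ` (by
a change of the variables `C`). -/
noncomputable def minDisc (W : WeierstrassCurve ℚ) : ℕ :=
  sInf {n : ℕ | ∃ (W' : WeierstrassCurve ℤ) (C : WeierstrassCurve.VariableChange ℚ),
    C • W = W'.map (Int.castRingHom ℚ) ∧ n = W'.Δ.natAbs}

/-- All the elliptic curves over `ℚ` (up to isomorphism) with torsion group `Z/2 x Z/2` and minimal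
discriminant at most `X` in absolute value. -/
def Fam (X : ℕ) : Set (ℤ × ℤ) :=
  {c | IsMinimal c.1 c.2 ∧ TorsionTwoTwo (curve c) ∧ minDisc (curve c) ≤ X}

/-- All the elliptic curves over `ℚ` (up to isomorphism) with full rational 2-torsion and minimal
discriminant at most `X` in absolute value. -/
def Full (X : ℕ) : Set (ℤ × ℤ) :=
  {c | IsMinimal c.1 c.2 ∧ FullTwo (curve c) ∧ minDisc (curve c) ≤ X}

lemma Full_eq (X : ℕ) : Full X = Run7.h318.DI.Fm X := by
  ext c
  have h : Pool.Agent.W307.RT.HasT 2 (Pool.Agent.W307.RT.Sh c.1 c.2) ↔ FullTwo (curve c) :=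
    Pool.Agent.W307.RT.tors_iff
  constructor
  · rintro ⟨⟨h1, h2⟩, h3, h4⟩
    exact ⟨h1, h2, h.2 h3, h4⟩
  · rintro ⟨h1, h2, h3, h4⟩
    exact ⟨⟨h1, h2⟩, h.1 h3, h4⟩

lemma full_of {W : WeierstrassCurve ℚ} (h : TorsionTwoTwo W) : FullTwo W := by
  obtain ⟨e⟩ := h
  refine ⟨(AddCommGroup.torsion W.toAffine.Point).subtype.comp e.symm.toAddMonoidHom, ?_⟩
  intro x y hxy
  exact e.symm.injective (Subtype.ext hxy)

lemma Fam_sub (X : ℕ) : Fam X ⊆ Full X := fun _ hc => ⟨hc.1, full_of hc.2.1, hc.2.2⟩

lemma mem_ES {X : ℕ} {c : ℤ × ℤ} : c ∈ Run7.h318.DI.ES X ↔ c ∈ Fam X := by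
  classical
  unfold Run7.h318.DI.ES
  rw [mem_filter, Run7.h318.DI.mem_FS, ← Full_eq]
  constructor
  · rintro ⟨h1, h2⟩
    exact ⟨h1.1, h2, h1.2.2⟩
  · intro h
    exact ⟨Fam_sub X h, h.2.1⟩

/-- **Theorem.** The elliptic curves over `ℚ` with torsion group `Z/2 x Z/2`, ordered by the absolute
value of the minimal discriminant: there are finitely many with `|Δ_min| ≤ X`, their number is of the
exact order `X ^ (1 / 3)`, the average of `4 ^ rank` over them is bounded, and the proportion of the
curves of rank at least `M` is at most `C / 4 ^ M`. They are a positive proportion of the curves with full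
rational 2-torsion, and the sum of `4 ^ rank` over all the curves with full rational 2-torsion is at most
a constant times the number of the curves with torsion group `Z/2 x Z/2`, if there is one. -/
theorem result :
    (∀ X : ℕ, (Full X).Finite ∧ Fam X ⊆ Full X) ∧
    (∃ (c C : ℝ) (X₀ : ℕ), 0 < c ∧ ∀ X : ℕ, X₀ ≤ X →
      c * (X : ℝ) ^ (1 / 3 : ℝ) ≤ (Fam X).ncard ∧
      ((Full X).ncard : ℝ) ≤ C * (X : ℝ) ^ (1 / 3 : ℝ)) ∧
    ∃ C : ℝ, ∀ X : ℕ,
      ∑ᶠ c ∈ Fam X, (4 : ℝ) ^ rank (curve c) ≤ C * (Fam X).ncard ∧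
      (∀ M : ℕ, (4 : ℝ) ^ M * ({c ∈ Fam X | M ≤ rank (curve c)} : Set (ℤ × ℤ)).ncard ≤
        C * (Fam X).ncard) ∧
      ((Fam X).Nonempty → ∑ᶠ c ∈ Full X, (4 : ℝ) ^ rank (curve c) ≤ C * (Fam X).ncard) := by
  classical
  have hfin : ∀ X : ℕ, (Full X).Finite := by
    intro X
    rw [Full_eq]
    exact Run7.h318.DI.Fm_finite X
  have hfin1 : ∀ X : ℕ, (Fam X).Finite := fun X => (hfin X).subset (Fam_sub X)
  have hS : ∀ X : ℕ, (hfin X).toFinset = Run7.h318.DI.FS X := by
    intro X
    ext c
    rw [Set.Finite.mem_toFinset, Run7.h318.DI.mem_FS, Full_eq]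
  have hS1 : ∀ X : ℕ, (hfin1 X).toFinset = Run7.h318.DI.ES X := by
    intro X
    ext c
    rw [Set.Finite.mem_toFinset, mem_ES]
  have hcard : ∀ X : ℕ, (Full X).ncard = (Run7.h318.DI.FS X).card := by
    intro X
    rw [Set.ncard_eq_toFinset_card _ (hfin X), hS]
  have hcard1 : ∀ X : ℕ, (Fam X).ncard = (Run7.h318.DI.ES X).card := by
    intro X
    rw [Set.ncard_eq_toFinset_card _ (hfin1 X), hS1]
  obtain ⟨C, hC0, hC⟩ := Run7.h69.UF.box 9
  refine ⟨fun X => ⟨hfin X, Fam_sub X⟩, ?_, ?_⟩
  · obtain ⟨_, C', _, h⟩ := Run7.h318.DI.number hC0 hC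
    obtain ⟨c, hc, h'⟩ := Run7.h318.DI.numberE
    refine ⟨c, C', 7 ^ 24, hc, fun X hX => ?_⟩
    rw [hcard, hcard1]
    exact ⟨h' X hX, (h X hX).2⟩
  · obtain ⟨C', h⟩ := Run7.h318.DI.averageE (R := Run7.h69.UF.RR) Run7.h69.UF.RR_nonneg hC0 hC
      (w := fun c => (4 : ℝ) ^ rank (curve c)) (fun c t hr => by
        have e : rank (curve c) =
            Module.finrank ℤ (Pool.Agent.W262.RK.EAB t.1 t.2).toAffine.Point :=
          Run7.h69.UH.rel_rank hr
        rw [e]
        exact le_refl _)
    refine ⟨C', fun X => ?_⟩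
    have h1 : (Fam X).Nonempty → ∑ᶠ c ∈ Full X, (4 : ℝ) ^ rank (curve c) ≤
        C' * (Fam X).ncard := by
      rintro ⟨c, hc⟩
      rw [finsum_mem_eq_finite_toFinset_sum _ (hfin X), hS, hcard1]
      refine h X fun h0 => ?_
      have := mem_ES.2 hc
      rw [card_eq_zero.1 h0] at this
      exact notMem_empty c this
    have h2 : ∑ᶠ c ∈ Fam X, (4 : ℝ) ^ rank (curve c) ≤ C' * (Fam X).ncard := by
      rcases Set.eq_empty_or_nonempty (Fam X) with h0 | h0
      · rw [h0, finsum_mem_empty, Set.ncard_empty]
        simp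
      · refine le_trans ?_ (h1 h0)
        rw [finsum_mem_eq_finite_toFinset_sum _ (hfin X),
          finsum_mem_eq_finite_toFinset_sum _ (hfin1 X)]
        apply sum_le_sum_of_subset_of_nonneg
        · intro c hc
          rw [Set.Finite.mem_toFinset] at hc ⊢
          exact Fam_sub X hc
        · intro c _ _
          positivity
    refine ⟨h2, fun M => le_trans ?_ h2, h1⟩
    rw [finsum_mem_eq_finite_toFinset_sum _ (hfin1 X)]
    have hfin' : ({c ∈ Fam X | M ≤ rank (curve c)} : Set (ℤ × ℤ)).Finite :=
      (hfin1 X).subset fun c hc => hc.1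
    rw [Set.ncard_eq_toFinset_card _ hfin']
    calc (4 : ℝ) ^ M * (hfin'.toFinset.card : ℝ)
        = ∑ c ∈ hfin'.toFinset, (4 : ℝ) ^ M := by rw [sum_const, nsmul_eq_mul, mul_comm]
      _ ≤ ∑ c ∈ hfin'.toFinset, (4 : ℝ) ^ rank (curve c) := by
        apply sum_le_sum
        intro c hc
        rw [Set.Finite.mem_toFinset] at hc
        exact pow_le_pow_right₀ (by norm_num) hc.2
      _ ≤ _ := by
        apply sum_le_sum_of_subset_of_nonneg
        · intro c hc
          rw [Set.Finite.mem_toFinset] at hc ⊢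
          exact hc.1
        · intro c _ _
          positivity

end Pool.Agent.Results.MP_9e6228_nt.TorsionTwoTwoByDiscriminant
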